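import Pool.Agent.Lib.MP_446dfa_ag.helper2.Defs

/-!
# The double shuffle Lie algebra

`K` is a field, `F2 K` is the free Lie algebra on two generators `x = gA K`, `y = gB K`
(see `Pool/Agent/Lib/MP_446dfa_ag/helper2/Defs.lean`).  The letters of words are `0` (for `x`)
and `1` (for `y`).  A word `x^{m_1} y ⋯ x^{m_r} y` is encoded by the list `[m_1, ..., m_r]` of
natural numbers; in the usual notation it is `y_{m_1+1} ⋯ y_{m_r+1}`.
-/

noncomputable section

namespace MP154526

open MP446

universe u

/-- Noncommutative polynomials in `x` (the letter `0`) and `y` (the letter `1`). -/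
abbrev NC (K : Type u) [Field K] : Type u := MonoidAlgebra K (FreeMonoid (Fin 2))

section Defs

variable {K : Type u} [Field K]

attribute [local instance 100] LieRing.ofAssociativeRing

/-- The expansion of a Lie element as a noncommutative polynomial. -/
def expand : F2 K →ₗ⁅K⁆ NC K :=
  FreeLieAlgebra.lift K ![MonoidAlgebra.of K (FreeMonoid (Fin 2)) (FreeMonoid.of 0),
    MonoidAlgebra.of K (FreeMonoid (Fin 2)) (FreeMonoid.of 1)]

/-- The coefficient `(ψ | w)` of the word `w` in the Lie element `ψ`. -/
def coef (ψ : F2 K) (w : List (Fin 2)) : K := (expand ψ).coeff (FreeMonoid.ofList w)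

/-- The word `x^{m_1} y ⋯ x^{m_r} y = y_{m_1+1} ⋯ y_{m_r+1}`. -/
def word : List ℕ → List (Fin 2)
  | [] => []
  | m :: u => List.replicate m 0 ++ 1 :: word u

/-- The stuffle (quasi-shuffle) product of the words encoded by two lists: the list, with
multiplicities, of all terms of `u * v`.  The recursion is
`(y_k u) * (y_l v) = y_k (u * y_l v) + y_l (y_k u * v) + y_{k+l} (u * v)`, with `k = m + 1`,
`l = n + 1`. -/
def stuffle : List ℕ → List ℕ → List (List ℕ)
  | [], v => [v]
  | u, [] => [u]
  | m :: u, n :: v => (stuffle u (n :: v)).map (m :: ·) ++ (stuffle (m :: u) v).map (n :: ·) ++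
      (stuffle u v).map ((m + n + 1) :: ·)
  termination_by u v => u.length + v.length

/-- The coefficients of `ψ_*`, the part of `ψ` supported on words ending in `y`, corrected by
`∑_{n ≥ 1} ((-1)^{n-1} / n) (ψ | x^{n-1} y) y_1^n`. -/
def starCoef (ψ : F2 K) (u : List ℕ) : K :=
  coef ψ (word u) + if u = List.replicate u.length 0 ∧ u ≠ [] then
    (-1) ^ (u.length - 1) / (u.length : K) * coef ψ (word [u.length - 1]) else 0

/-- Racinet's double shuffle Lie algebra `𝔡𝔪𝔯₀` (its polynomial version): the Lie elements `ψ`
without terms `x`, `y`, `[x, y]` such that `ψ_*` vanishes on all stuffle products of two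
non-empty words (that is, `ψ_*` is primitive for the harmonic coproduct). -/
structure IsDMR (ψ : F2 K) : Prop where
  coef_x : coef ψ [0] = 0
  coef_y : coef ψ [1] = 0
  coef_xy : coef ψ [0, 1] = 0
  stuffle : ∀ u v : List ℕ, u ≠ [] → v ≠ [] → ((stuffle u v).map (starCoef ψ)).sum = 0

/-- A larger space: the Lie elements `ψ` without terms `x`, `y` such that `ψ_*` vanishes on the
stuffle products `y_k * w` of a letter with a non-empty word. -/
structure IsLetterDMR (ψ : F2 K) : Prop where
  coef_x : coef ψ [0] = 0
  coef_y : coef ψ [1] = 0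
  stuffle : ∀ (m : ℕ) (w : List ℕ), w ≠ [] → ((stuffle [m] w).map (starCoef ψ)).sum = 0

lemma IsDMR.letter {ψ : F2 K} (h : IsDMR ψ) : IsLetterDMR ψ where
  coef_x := h.coef_x
  coef_y := h.coef_y
  stuffle m w hw := h.stuffle [m] w (by simp) hw

end Defs

end MP154526
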